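import Mathlib

/-!
# JS-2: growth (pure analysis) (project JS, MP_03a1f6_co)
-/

set_option autoImplicit false

namespace Pool.Agent.Helper55.JS

open Finset

namespace P2

/-- the partial sums -/
def ms (C β : ℝ) (α : ℕ → ℝ) (i : ℕ) : ℝ := C * β + ∑ i' ∈ range (i + 1), α i'

lemma ms_succ (C β : ℝ) (α : ℕ → ℝ) (i : ℕ) : ms C β α (i + 1) = ms C β α i + α (i + 1) := by
  unfold ms
  rw [sum_range_succ _ (i + 1)]
  ring

lemma ms_pos {C β : ℝ} {α : ℕ → ℝ} (hC : 1 ≤ C) (hβ : 0 < β) (hα : ∀ i, 0 ≤ α i) (i : ℕ) :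
    0 < ms C β α i := by
  unfold ms
  have : 0 ≤ ∑ i' ∈ range (i + 1), α i' := sum_nonneg fun i _ => hα i
  have : 0 < C * β := by positivity
  linarith

lemma le_ms {C β : ℝ} {α : ℕ → ℝ} (hC : 1 ≤ C) (hβ : 0 < β) (hα : ∀ i, 0 ≤ α i) {i i' : ℕ}
    (h : i' ≤ i) : α i' ≤ ms C β α i := by
  unfold ms
  have h1 : α i' ≤ ∑ i' ∈ range (i + 1), α i' :=
    single_le_sum (f := α) (fun i _ => hα i) (mem_range.2 (by omega))
  have : 0 < C * β := by positivity
  linarith

end P2

/-- JS-2 -/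
theorem growth_numbers (j : ℕ) (C ρ : ℝ) (hC : 1 ≤ C) (hρ : 1 ≤ ρ) : ∃ M0 : ℝ, 0 < M0 ∧
    ∀ (α : ℕ → ℝ) (β : ℝ), 0 < β → (∀ i, 0 ≤ α i) → α 0 ≤ C * β → M0 * β ≤ α j →
      (∀ i, 1 ≤ i → i < j →
        α i ^ 2 ≤ α (i - 1) * (α (i + 1) + C * ∑ i' ∈ range i, α i' + C * β)) →
      ∀ i, i < j → ρ * α i < α j := by
  obtain ⟨K, hK⟩ : ∃ K, K = ρ + 2 + C := ⟨_, rfl⟩
  obtain ⟨L, hL⟩ : ∃ L, L = 4 ^ j * K := ⟨_, rfl⟩
  have hK0 : 0 < K := by linarith
  have hL0 : 0 < L := by
    rw [hL]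
    positivity
  refine ⟨(1 + L) ^ j * (2 * C) + 1, by positivity, ?_⟩
  intro α β hβ hα h0 hj hrec i hij
  have hj1 : 1 ≤ j := by omega
  have hmpos : ∀ i, 0 < P2.ms C β α i := P2.ms_pos hC hβ hα
  -- the property
  have hLq : ∀ q, q ≤ j → K ≤ L / 4 ^ q := by
    intro q hq
    rw [le_div_iff₀ (by positivity), hL, mul_comm]
    exact mul_le_mul_of_nonneg_right (pow_le_pow_right₀ (by norm_num) hq) hK0.le
  have hex : ∃ q, q + 1 ≤ j ∧ L / 4 ^ (q + 1) * P2.ms C β α q ≤ α (q + 1) := by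
    by_contra hcon
    push Not at hcon
    have hstep : ∀ q, q ≤ j → P2.ms C β α q ≤ (1 + L) ^ q * P2.ms C β α 0 := by
      intro q
      induction q with
      | zero => intro _; simp
      | succ q ih =>
        intro hq
        have h1 := hcon q hq
        have h2 : L / 4 ^ (q + 1) ≤ L := div_le_self hL0.le (one_le_pow₀ (by norm_num))
        have h3 : L / 4 ^ (q + 1) * P2.ms C β α q ≤ L * P2.ms C β α q :=
          mul_le_mul_of_nonneg_right h2 (hmpos q).le
        rw [P2.ms_succ]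
        calc P2.ms C β α q + α (q + 1) ≤ (1 + L) * P2.ms C β α q := by linarith
          _ ≤ (1 + L) * ((1 + L) ^ q * P2.ms C β α 0) :=
            mul_le_mul_of_nonneg_left (ih (by omega)) (by linarith)
          _ = _ := by ring
    have h1 := hstep j le_rfl
    have h2 : P2.ms C β α 0 ≤ 2 * C * β := by
      unfold P2.ms
      rw [zero_add, sum_range_one]
      linarith
    have h3 : α j ≤ P2.ms C β α j := P2.le_ms hC hβ hα le_rfl
    have h4 : (1 + L) ^ j * P2.ms C β α 0 ≤ (1 + L) ^ j * (2 * C * β) :=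
      mul_le_mul_of_nonneg_left h2 (by positivity)
    have h5 : ((1 + L) ^ j * (2 * C) + 1) * β = (1 + L) ^ j * (2 * C * β) + β := by ring
    rw [h5] at hj
    linarith
  obtain ⟨q, hq, hPq⟩ := hex
  have hind : ∀ r, q + r + 1 ≤ j →
      L / 4 ^ (q + r + 1) * P2.ms C β α (q + r) ≤ α (q + r + 1) := by
    intro r
    induction r with
    | zero => intro _; simpa using hPq
    | succ r ih =>
      intro hr
      have h1 := ih (by omega)
      obtain ⟨s, hs⟩ : ∃ s, s = q + r := ⟨_, rfl⟩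
      have e1 : q + (r + 1) = s + 1 := by omega
      rw [e1]
      rw [← hs] at h1
      obtain ⟨Λ, hΛ⟩ : ∃ Λ, Λ = L / 4 ^ (s + 1) := ⟨_, rfl⟩
      have hΛK : K ≤ Λ := by
        rw [hΛ]
        exact hLq _ (by omega)
      rw [← hΛ] at h1
      have e2 : L / 4 ^ (s + 1 + 1) = Λ / 4 := by
        rw [hΛ, pow_succ 4 (s + 1)]
        field_simp
      rw [e2]
      have h2 := hrec (s + 1) (by omega) (by omega)
      rw [Nat.add_sub_cancel] at h2
      obtain ⟨m, hm⟩ : ∃ m, m = P2.ms C β α s := ⟨_, rfl⟩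
      have hmp : 0 < m := by rw [hm]; exact hmpos s
      rw [← hm] at h1
      have h3 : C * ∑ i' ∈ range (s + 1), α i' + C * β ≤ C * m := by
        rw [hm]
        unfold P2.ms
        have : β ≤ C * β := by nlinarith
        nlinarith
      have h4 : α s ≤ m := by rw [hm]; exact P2.le_ms hC hβ hα le_rfl
      have hΛ0 : 0 < Λ := by linarith
      have ha : 0 < α (s + 1) := lt_of_lt_of_le (by positivity) h1
      obtain ⟨a, ha'⟩ : ∃ a, a = α (s + 1) := ⟨_, rfl⟩
      obtain ⟨b, hb'⟩ : ∃ b, b = α (s + 1 + 1) := ⟨_, rfl⟩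
      have hb0 : 0 ≤ b := by rw [hb']; exact hα _
      rw [P2.ms_succ, ← hm, ← ha', ← hb']
      rw [← ha', ← hb'] at h2
      rw [← ha'] at h1 ha
      -- `Λ a ≤ b + C m`
      have h5 : a ^ 2 ≤ m * (b + C * m) := by
        refine h2.trans ?_
        have h6 : b + C * ∑ i' ∈ range (s + 1), α i' + C * β ≤ b + C * m := by linarith
        have h7 : 0 ≤ b + C * m := by positivity
        exact (mul_le_mul_of_nonneg_left h6 (hα s)).trans (mul_le_mul_of_nonneg_right h4 h7)
      have h6 : Λ * a ≤ b + C * m := by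
        have h7 : (Λ * m) * a ≤ m * (b + C * m) := by
          calc (Λ * m) * a ≤ a * a := mul_le_mul_of_nonneg_right h1 ha.le
            _ = a ^ 2 := by ring
            _ ≤ _ := h5
        have h8 : m * (Λ * a) ≤ m * (b + C * m) := by
          calc m * (Λ * a) = (Λ * m) * a := by ring
            _ ≤ _ := h7
        exact le_of_mul_le_mul_left h8 hmp
      have h7 : C * m ≤ a := by
        calc C * m ≤ Λ * m := mul_le_mul_of_nonneg_right (by linarith) hmp.le
          _ ≤ a := h1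
      have h8 : m ≤ a := by nlinarith
      have h9 : 2 ≤ Λ := by linarith
      -- `b ≥ (Λ - 1) a ≥ Λ / 4 * (m + a)`
      have h10 : Λ / 4 * (m + a) ≤ Λ / 4 * (a + a) :=
        mul_le_mul_of_nonneg_left (by linarith) (by linarith)
      nlinarith
  have hfin := hind (j - 1 - q) (by omega)
  have e3 : q + (j - 1 - q) + 1 = j := by omega
  have e4 : q + (j - 1 - q) = j - 1 := by omega
  rw [e3, e4] at hfin
  have h1 : K * P2.ms C β α (j - 1) ≤ α j :=
    (mul_le_mul_of_nonneg_right (hLq j le_rfl) (hmpos _).le).trans hfin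
  have h2 : α i ≤ P2.ms C β α (j - 1) := P2.le_ms hC hβ hα (by omega)
  have h3 := hmpos (j - 1)
  have h4 : ρ * α i ≤ ρ * P2.ms C β α (j - 1) := mul_le_mul_of_nonneg_left h2 (by linarith)
  have h5 : ρ * P2.ms C β α (j - 1) < K * P2.ms C β α (j - 1) :=
    mul_lt_mul_of_pos_right (by linarith) h3
  linarith

end Pool.Agent.Helper55.JS
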